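import Pool.Agent.H46.CAB.Fin
import Pool.Agent.H44.FaceNum
import Pool.Agent.H44.HVec
import Pool.Agent.H64.CabHS
import Pool.Agent.H64.CabJG

/-!
MP_cab404_co: the number of edges and `γ_2` of flag homology `2r`-spheres with at most `6 r + 2`
vertices, for every `r ≥ 1`.
-/

namespace Pool.Agent.Results.MP_cab404_co.FewVertices

open Finset Polynomial Pool.Agent.H44 Pool.Agent.H64.CabHS Pool.Agent.H64.CabJG Pool.Agent.H46.CAB

universe u v

/-- Let `G` be a graph with at most `6 r + 2` vertices whose clique complex `M` is a homology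
`2r`-sphere over a commutative domain `k`. Then the numbers of edges satisfy
`f_1(M) ≤ f_1(J_r^*(n))`, and `γ_i(M) ≤ γ_i(J_r^*(n))` for `i ≤ 2`. -/
theorem result (r : ℕ) (hr : 1 ≤ r) (k : Type v) [CommRing k] [IsDomain k]
    (V : Type u) [Fintype V] [LinearOrder V] (G : SimpleGraph V) (m : Fin r → ℕ)
    (hS : HomSphere k G (2 * r + 1)) (hn : Fintype.card V ≤ 6 * r + 2)
    (hsum : ∑ j, m j + 2 = Fintype.card V) (hbal : ∀ i j, m i ≤ m j + 1) :
    (∀ i ≤ 2, faceNum G i ≤ faceNum (JStar m) i) ∧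
    (∃ h γ h' γ' : ℕ → ℤ,
      IsHVector (2 * r + 1) (faceNum G) h ∧ IsGammaVector (2 * r + 1) h γ ∧
      IsHVector (2 * r + 1) (faceNum (JStar m)) h' ∧ IsGammaVector (2 * r + 1) h' γ') ∧
    ∀ h γ h' γ' : ℕ → ℤ,
      IsHVector (2 * r + 1) (faceNum G) h → IsGammaVector (2 * r + 1) h γ →
      IsHVector (2 * r + 1) (faceNum (JStar m)) h' → IsGammaVector (2 * r + 1) h' γ' →
      ∀ i ≤ 2, i ≤ r → γ i ≤ γ' i := by
  classical
  have hE : Eul G (2 * r + 1) := hS.eul
  have hd : (2 * r + 1) / 2 = r := by omega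
  obtain ⟨γ, hγ⟩ := hE.exists_gamma
  obtain ⟨e1, e2, e3⟩ := eul_main hE
  have hG1 := trunc_eq G hγ
  have hm : ∀ j, 4 ≤ m j := by
    intro j
    by_contra hlt
    push Not at hlt
    have h1 : ∑ i, m i ≤ ∑ i ∈ univ.erase j, 4 + m j := by
      rw [← sum_erase_add _ _ (mem_univ j)]
      apply Nat.add_le_add_right
      apply sum_le_sum
      intro i _
      have := hbal i j
      omega
    rw [sum_const, card_erase_of_mem (mem_univ _), card_univ, Fintype.card_fin,
      smul_eq_mul] at h1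
    omega
  have hJ := cp_JStar_gamma m hm
  have hle := gamma_le_two hr hE hn hm hbal hsum hγ
  have hJ1 := trunc_eq (JStar m) hJ
  refine ⟨?_, ?_, ?_⟩
  · intro i hi
    have h1 : (faceNum G i : ℤ) ≤ (faceNum (JStar m) i : ℤ) := by
      rw [faceNum_eq_coeff, faceNum_eq_coeff, coeff_gamma hγ, coeff_gamma hJ]
      apply sum_le_sum
      intro j hj
      rw [mem_range, hd] at hj
      rcases Nat.lt_or_ge 2 j with hj2 | hj2
      · rw [gb_coeff_lt (by omega), mul_zero, mul_zero]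
      · exact mul_le_mul_of_nonneg_right (hle j hj2 (by omega)) (gb_coeff_nonneg _ _ _)
    exact_mod_cast h1
  · obtain ⟨h, hh1, hh2⟩ := gamma_bwd (hG1.trans hγ)
    obtain ⟨h', hh1', hh2'⟩ := gamma_bwd (hJ1.trans hJ)
    exact ⟨h, γ, h', _, hh1, hh2, hh1', hh2'⟩
  · intro h γ1 h' γ1' a1 a2 a3 a4 i hi hir
    have b1 := gamma_fwd a1 a2
    have b2 := gamma_fwd a3 a4
    rw [hG1, hγ] at b1
    rw [hJ1, hJ] at b2
    have c1 := gamma_unique b1 i (by omega)
    have c2 := gamma_unique b2 i (by omega)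
    rw [← c1, ← c2]
    exact hle i hi hir

end Pool.Agent.Results.MP_cab404_co.FewVertices
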