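import Pool.Agent.H44.Main
import Pool.Agent.H44.HVec
import Pool.Agent.H64.CabHS
import Pool.Agent.H64.CabJG

/-!
MP_cab404_co: the upper bounds for the face numbers and the gamma vector of flag homology
`2r`-spheres with sufficiently many vertices, for every `r ≥ 1`.
-/

namespace Pool.Agent.Results.MP_cab404_co.LargeN

open Finset Polynomial Pool.Agent.H44 Pool.Agent.H64.CabHS Pool.Agent.H64.CabJG

universe u v

/-- The number of faces with `i` vertices (dimension `i - 1`) of the clique complex of `G`. -/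
noncomputable def faceNum {V : Type*} (G : SimpleGraph V) (i : ℕ) : ℕ := (G.cliqueSet i).ncard

lemma faceNum_eq {V : Type*} [Fintype V] [DecidableEq V] (G : SimpleGraph V)
    [DecidableRel G.Adj] (i : ℕ) : faceNum G i = (Kc G univ i).card := by
  unfold faceNum
  have h : G.cliqueSet i = ((Kc G univ i : Finset (Finset V)) : Set (Finset V)) := by
    ext s
    rw [SimpleGraph.mem_cliqueSet_iff, mem_coe, mem_Kc, SimpleGraph.isNClique_iff]
    exact ⟨fun h => ⟨subset_univ _, h⟩, fun h => h.2⟩
  rw [h, Set.ncard_coe_finset]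

lemma faceNum_eq_coeff {V : Type*} [Fintype V] [DecidableEq V] (G : SimpleGraph V)
    [DecidableRel G.Adj] (i : ℕ) : (faceNum G i : ℤ) = (cp G univ).coeff i := by
  rw [faceNum_eq, cp_coeff]

/-- If the clique polynomial has a gamma representation, so has the truncated face polynomial. -/
lemma trunc_eq {V : Type*} [Fintype V] [DecidableEq V] (G : SimpleGraph V)
    [DecidableRel G.Adj] {d : ℕ} {γ : ℕ → ℤ}
    (h : cp G univ = ∑ j ∈ range (d / 2 + 1), C (γ j) * gb d j) :
    (∑ i ∈ range (d + 1), C (faceNum G i : ℤ) * X ^ i : ℤ[X]) = cp G univ := by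
  have hdeg : (cp G univ).natDegree < d + 1 := by
    rw [Nat.lt_succ_iff, h]
    apply natDegree_sum_le_of_forall_le
    intro j hj
    rw [mem_range] at hj
    apply (natDegree_C_mul_le _ _).trans
    exact gb_natDegree_le (by omega)
  rw [(cp G univ).as_sum_range_C_mul_X_pow' hdeg]
  apply sum_congr rfl
  intro i _
  rw [faceNum_eq_coeff]

theorem result (r : ℕ) (hr : 1 ≤ r) :
    ∃ n₀ : ℕ, ∀ (k : Type v) [CommRing k] [IsDomain k] (V : Type u) [Fintype V] [LinearOrder V]
      (G : SimpleGraph V) (m : Fin r → ℕ),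
      n₀ ≤ Fintype.card V →
      HomSphere k G (2 * r + 1) →
      ∑ j, m j + 2 = Fintype.card V →
      (∀ i j, m i ≤ m j + 1) →
      (∀ i, faceNum G i ≤ faceNum (JStar m) i) ∧
      (∃ h γ h' γ' : ℕ → ℤ,
        IsHVector (2 * r + 1) (faceNum G) h ∧ IsGammaVector (2 * r + 1) h γ ∧
        IsHVector (2 * r + 1) (faceNum (JStar m)) h' ∧ IsGammaVector (2 * r + 1) h' γ') ∧
      ∀ h γ h' γ' : ℕ → ℤ,
        IsHVector (2 * r + 1) (faceNum G) h → IsGammaVector (2 * r + 1) h γ →
        IsHVector (2 * r + 1) (faceNum (JStar m)) h' → IsGammaVector (2 * r + 1) h' γ' →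
        ∀ i ≤ r, γ i ≤ γ' i := by
  classical
  obtain ⟨N0, hN0⟩ := gamma_le_main.{u} r hr
  refine ⟨N0 + (4 * r + 2), ?_⟩
  intro k _ _ V _ _ G m hn hS hsum hbal
  have hE : Eul G (2 * r + 1) := hS.eul
  have hd : (2 * r + 1) / 2 = r := by omega
  -- the cycles have length at least four
  have hm : ∀ j, 4 ≤ m j := by
    intro j
    by_contra hlt
    push Not at hlt
    have h1 : ∑ i, m i ≤ ∑ i ∈ univ.erase j, 4 + m j := by
      rw [← sum_erase_add _ _ (mem_univ j)]
      apply Nat.add_le_add_right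
      apply sum_le_sum
      intro i _
      have := hbal i j
      omega
    rw [sum_const, card_erase_of_mem (mem_univ _), card_univ, Fintype.card_fin, smul_eq_mul] at h1
    omega
  obtain ⟨γ, hγ⟩ := hE.exists_gamma
  have hJ := cp_JStar_gamma m hm
  have hle := hN0 V G γ m hE (by omega) hm hbal hsum hγ
  -- face numbers
  have hface : ∀ i, faceNum G i ≤ faceNum (JStar m) i := by
    intro i
    have h1 : (faceNum G i : ℤ) ≤ (faceNum (JStar m) i : ℤ) := by
      rw [faceNum_eq_coeff, faceNum_eq_coeff, coeff_gamma hγ, coeff_gamma hJ]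
      apply sum_le_sum
      intro j hj
      rw [mem_range, hd] at hj
      exact mul_le_mul_of_nonneg_right (hle j (by omega)) (gb_coeff_nonneg _ _ _)
    exact_mod_cast h1
  have hG1 := trunc_eq G hγ
  have hJ1 := trunc_eq (JStar m) hJ
  refine ⟨hface, ?_, ?_⟩
  · obtain ⟨h, hh1, hh2⟩ := gamma_bwd (hG1.trans hγ)
    obtain ⟨h', hh1', hh2'⟩ := gamma_bwd (hJ1.trans hJ)
    exact ⟨h, γ, h', _, hh1, hh2, hh1', hh2'⟩
  · intro h γ1 h' γ1' a1 a2 a3 a4 i hi
    have b1 := gamma_fwd a1 a2
    have b2 := gamma_fwd a3 a4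
    rw [hG1, hγ] at b1
    rw [hJ1, hJ] at b2
    have c1 := gamma_unique b1 i (by omega)
    have c2 := gamma_unique b2 i (by omega)
    rw [← c1, ← c2]
    exact hle i hi

end Pool.Agent.Results.MP_cab404_co.LargeN
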